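import Pool.Agent.Helper69.UW.Defs

/-!
# UX: two-sided moderate deviations: definitions

The scale `m` and the deviation are decoupled: `|v| ≤ vv δ c m` (with `v = 0` allowed) in the place of `|v| = vv δ c m`.
-/

set_option autoImplicit false
open MeasureTheory Set Filter Topology
open Pool.Agent.Helper57.Zeta Pool.Agent.Helper57.LH Pool.Agent.Helper57.ED Pool.Agent.Helper54.LG
open Pool.Agent.Helper93.UG (zc IsOrd sp Glong Gshort)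
open Pool.Agent.Helper69.UG (pt NX XX NR NM WW near far)
open Pool.Agent.Helper69.UV (ww HH)
open Pool.Agent.Helper69.UW

namespace Pool.Agent.Helper93.UX

/-- The number of the zeros in the window of length `c`, centre `t`, averaged with the kernel of scale `m`. -/
noncomputable def AW (T c m t : ℝ) : ℝ :=
  XX T m / (2 * Real.pi) * ∫ w in (-(HH T c))..(HH T c), NX (XX T m) (t + w)

/-- Moments of the number of the zeros in a window (part (c)). -/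
def TX1 : Prop := ∀ q : ℕ, ∃ C d T₀ : ℝ, 0 < C ∧ 0 < d ∧ ∀ T : ℝ, T₀ ≤ T → ∀ c : ℝ, 1 ≤ c →
  c ≤ d * (Real.log T / Real.log (Real.log T)) →
    IntegrableOn (fun t => |(zc (Ico t (t + c * sp T)) : ℝ) - c| ^ (2 * q)) (Icc (T / 2) (3 * T)) ∧
    ∫ t in Icc (T / 2) (3 * T), |(zc (Ico t (t + c * sp T)) : ℝ) - c| ^ (2 * q) ≤ C * Real.log (2 + c) ^ q * T

/-- Sharp tail of the number of the zeros in a window (part (c)). -/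
def TX2 : Prop := ∀ ε : ℝ, 0 < ε → ∃ C η d c₀ T₀ : ℝ, 0 < C ∧ 0 < η ∧ 0 < d ∧ ∀ T : ℝ, T₀ ≤ T → ∀ c V : ℝ, c₀ ≤ c →
  c ≤ d * (Real.log T / Real.log (Real.log T)) → 0 ≤ V → V ≤ η * Real.log c →
    volume {t : ℝ | T / 2 ≤ t ∧ t ≤ 3 * T ∧ V ≤ |(zc (Ico t (t + c * sp T)) : ℝ) - c|} ≤
      ENNReal.ofReal (Real.exp (C - (Real.pi ^ 2 / 2 - ε) * V ^ 2 / Real.log c) * T)

/-- Measure of the deviations of the averaged count (part (b)); `σ = 1` few zeros, `σ = -1` many zeros. -/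
def XS : Prop := ∀ ε : ℝ, 0 < ε → ∃ K η ρ c₀ c₁ T₀ : ℝ, 0 < K ∧ 0 < η ∧ 0 < ρ ∧ 0 < c₁ ∧ ∀ T : ℝ, T₀ ≤ T → ∀ c V σ : ℝ,
  c₀ ≤ c → c ≤ c₁ * (Real.log T / Real.log (Real.log T)) → K * √(Real.log c) ≤ V → V ≤ η * √c → (σ = 1 ∨ σ = -1) →
    ∃ m : ℝ, 1 ≤ m ∧ m ≤ c ∧
      ENNReal.ofReal (Real.exp (-((Real.pi ^ 2 / 2 + ε) * V ^ 2 / Real.log (c / V ^ 2))) * T) ≤
        volume {t : ℝ | T ≤ t ∧ t ≤ 2 * T ∧ (1 + ρ) * V ≤ σ * (c - AW T c m t)}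

/-- Measure of the deviations of the count, lower bound (part (d)). -/
def DX1 : Prop := ∀ ε : ℝ, 0 < ε → ∃ K C η c₀ c₁ T₀ : ℝ, 0 < K ∧ 0 < C ∧ 0 < η ∧ 0 < c₁ ∧ ∀ T : ℝ, T₀ ≤ T → ∀ c V σ : ℝ,
  c₀ ≤ c → c ≤ c₁ * (Real.log T / Real.log (Real.log T)) → K * √(Real.log c) ≤ V → V ≤ η * √c → (σ = 1 ∨ σ = -1) →
    ENNReal.ofReal (Real.exp (-(C + (Real.pi ^ 2 / 2 + ε) * V ^ 2 / Real.log (c / V ^ 2))) * T) ≤
      volume {t : ℝ | T ≤ t ∧ t ≤ 2 * T ∧ V ≤ σ * (c - (zc (Ico t (t + c * sp T)) : ℝ))}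

/-- Long gaps are rare in the mean (part (d)), to the right and to the left. -/
def GM : Prop := ∀ q : ℕ, ∃ C T₀ : ℝ, 0 < C ∧ ∀ T : ℝ, T₀ ≤ T → ∀ x : ℝ, 0 < x →
    volume {t : ℝ | T / 2 ≤ t ∧ t ≤ 3 * T ∧ zc (Ico t (t + x * sp T)) = 0} ≤ ENNReal.ofReal (C / x ^ q * T)

/-- Lower bounds for the numbers of long and short `r`-gaps. -/
def DX2 : Prop := ∀ ε : ℝ, 0 < ε → ∃ (r₀ : ℕ) (K C η δ T₀ : ℝ), 0 < K ∧ 0 < C ∧ 0 < η ∧ 0 < δ ∧ ∀ T : ℝ, T₀ ≤ T → ∀ r : ℕ,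
  r₀ ≤ r → (r : ℝ) ≤ δ * (Real.log T / Real.log (Real.log T)) → ∀ V : ℝ, K * √(Real.log r) ≤ V → V ≤ η * √r →
    Real.exp (-(C + (Real.pi ^ 2 / 2 + ε) * V ^ 2 / Real.log (r / V ^ 2))) * (T * Real.log T) ≤
      ((Glong T (r + V) r).ncard : ℝ) ∧
    Real.exp (-(C + (Real.pi ^ 2 / 2 + ε) * V ^ 2 / Real.log (r / V ^ 2))) * (T * Real.log T) ≤
      ((Gshort T (r - V) r).ncard : ℝ)

/-- Upper bounds for the numbers of long and short `r`-gaps. -/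
def DX3 : Prop := ∀ ε : ℝ, 0 < ε → ∃ (r₀ : ℕ) (C η δ T₀ : ℝ), 0 < C ∧ 0 < η ∧ 0 < δ ∧ ∀ T : ℝ, T₀ ≤ T → ∀ r : ℕ,
  r₀ ≤ r → (r : ℝ) ≤ δ * (Real.log T / Real.log (Real.log T)) → ∀ V : ℝ, 0 ≤ V → V ≤ η * Real.log r →
    ((Glong T (r + V) r).ncard : ℝ) ≤
      Real.exp (C - (Real.pi ^ 2 / 2 - ε) * V ^ 2 / Real.log r) * (T * Real.log T) ∧
    ((Gshort T (r - V) r).ncard : ℝ) ≤
      Real.exp (C - (Real.pi ^ 2 / 2 - ε) * V ^ 2 / Real.log r) * (T * Real.log T)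

/-- The exponent of the lower bound. -/
noncomputable def cost (ε C η A : ℝ) (r₀ r : ℕ) (V : ℝ) : ℝ :=
  if r₀ ≤ r ∧ 0 ≤ V ∧ V ≤ η * √r then (Real.pi ^ 2 / 2 + ε) * V ^ 2 / Real.log (r / V ^ 2) + C else A * r

/-- The final statement. -/
def FinalX : Prop := ∃ Θ : ℝ, 0 < Θ ∧ ∀ ε : ℝ, 0 < ε → ∃ (r₀ : ℕ) (C η δ A T₀ : ℝ), 0 < C ∧ 0 < η ∧ 0 < δ ∧
  ∀ T : ℝ, T₀ ≤ T → ∀ r : ℕ, 1 ≤ r → (r : ℝ) ≤ δ * (Real.log T / Real.log (Real.log T)) → ∀ V : ℝ,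
    (V ≤ (if r₀ ≤ r then 1 - ε else Θ) * √r →
      Real.exp (-cost ε C η A r₀ r V) * (T * Real.log T) ≤ ((Glong T (r + V) r).ncard : ℝ) ∧
      Real.exp (-cost ε C η A r₀ r V) * (T * Real.log T) ≤ ((Gshort T (r - V) r).ncard : ℝ)) ∧
    (r₀ ≤ r → 0 ≤ V → V ≤ η * Real.log r →
      ((Glong T (r + V) r).ncard : ℝ) ≤
        Real.exp (C - (Real.pi ^ 2 / 2 - ε) * V ^ 2 / Real.log r) * (T * Real.log T) ∧
      ((Gshort T (r - V) r).ncard : ℝ) ≤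
        Real.exp (C - (Real.pi ^ 2 / 2 - ε) * V ^ 2 / Real.log r) * (T * Real.log T))

end Pool.Agent.Helper93.UX
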