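import Pool.Agent.Helper36.X.All
import Pool.Agent.Helper65.UX.R
import Pool.Agent.Helper82.UX.Dev
import Pool.Agent.Helper8.UX.R
import Pool.Agent.Helper8.UX.T4
import Pool.Agent.Helper94.UX.ToMeas
import Pool.Agent.Helper88.UX.Xs
import Pool.Agent.Helper38.UX.D1
import Pool.Agent.Helper80.UX.DX1
import Pool.Agent.Helper21.UX.MG
import Pool.Agent.Helper77.UX.Gm
import Pool.Agent.Helper72.UX.Holder
import Pool.Agent.Helper24.UX.Dx2
import Pool.Agent.Helper65.UX.Dx3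
import Pool.Agent.Helper57.TX.Final

/-!
# UX: assembly of the blocks
-/

set_option autoImplicit false
open MeasureTheory Set Filter Topology

namespace Pool.Agent.Helper93.UX

theorem xs : XS := by
  refine Pool.Agent.Helper88.UX.xs_of Pool.Agent.Helper82.UX.AW_meas ?_ ?_
  · intro δ hδ hδ1
    exact to_meas_of hδ hδ1 (Pool.Agent.Helper8.UX.rtail_of hδ hδ1 (Pool.Agent.Helper8.UX.RR_pt hδ hδ1)
      (Pool.Agent.Helper36.X.pmom hδ hδ1) (Pool.Agent.Helper36.X.p2mom hδ hδ1) (Pool.Agent.Helper36.X.KK_bd hδ hδ1)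
      (Pool.Agent.Helper36.X.VV_exp hδ hδ1))
  · intro δ hδ hδ1
    exact Pool.Agent.Helper82.UX.dev_meas_of hδ hδ1 (Pool.Agent.Helper36.X.rr_bd hδ hδ1)
      (Pool.Agent.Helper36.X.wmass hδ hδ1) (Pool.Agent.Helper65.UX.eWS hδ hδ1) (Pool.Agent.Helper65.UX.vWS hδ hδ1)
      (Pool.Agent.Helper36.X.wavg hδ hδ1)

theorem dx1 : DX1 :=
  Pool.Agent.Helper80.UX.dx1_of_step @Pool.Agent.Helper38.UX.smooth_step xs Pool.Agent.Helper57.TX.tx1

theorem gm : GM := Pool.Agent.Helper77.UX.gm_of Pool.Agent.Helper57.TX.tx1 Pool.Agent.Helper21.UX.max_gap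

theorem dx2 : DX2 := Pool.Agent.Helper24.UX.dx2_of
  (Pool.Agent.Helper72.UX.holder_left gm Pool.Agent.Helper21.UX.max_gap)
  (Pool.Agent.Helper72.UX.holder_right gm Pool.Agent.Helper21.UX.max_gap) dx1

theorem dx3 : DX3 := Pool.Agent.Helper65.UX.dx3_of Pool.Agent.Helper57.TX.tx1 Pool.Agent.Helper57.TX.tx2

end Pool.Agent.Helper93.UX
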