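import Pool.Agent.Helper93.UW.Cor
import Pool.Agent.Helper93.UX.Defs

/-!
# UX: deviations of `S(t + h) - S(t)`

With `x = h log T / (2 π)`: the measure of the `t` in `[T, 2T]` with `± (S(t+h) - S(t)) ≥ V` is at least
`exp (-(π²/2 + ε) V² / log (x / V²) - C) T` for `0 ≤ V ≤ η √x`, and at most `exp (C - (π²/2 - ε) V² / log x) T` for
`0 ≤ V ≤ η log x`.
-/

set_option autoImplicit false
open MeasureTheory Set Filter Topology
open Pool.Agent.Helper57.PC Pool.Agent.Helper93.UG Pool.Agent.Helper56.UG Pool.Agent.Helper49.UG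

namespace Pool.Agent.Helper93.UX

/-- The difference `S(t + h) - S(t)`, up to `O(1)`. -/
noncomputable def ΔS (h t : ℝ) : ℝ :=
  ((zc (Ioc 0 (t + h)) : ℝ) - (t + h) / (2 * Real.pi) * Real.log ((t + h) / (2 * Real.pi * Real.exp 1))) -
    ((zc (Ioc 0 t) : ℝ) - t / (2 * Real.pi) * Real.log (t / (2 * Real.pi * Real.exp 1)))

/-- Comparison of the count in a window and the difference. -/
lemma ΔS_near {T h c t : ℝ} (hT : 10 ≤ T) (hh0 : 0 ≤ h) (hh1 : h ≤ 1) (hc : c = h / (2 * Real.pi) * Real.log T)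
    (ht1 : T ≤ t) (ht2 : t ≤ 2 * T) (ht4 : ¬ IsOrd t) (ht5 : ¬ IsOrd (t + h)) :
    ((zc (Ico t (t + h)) : ℝ) - c) - 1 ≤ ΔS h t ∧ ΔS h t ≤ ((zc (Ico t (t + h)) : ℝ) - c) + 1 := by
  have hpi := Real.pi_pos
  have hpi3 := Real.pi_gt_three
  have ht0 : 0 < t := by linarith
  have hT0 : 0 < T := by linarith
  have hs1 := zc_step ht0 hh0 ht4
  have hs2 := zc_step' ht0 hh0 ht5
  have hM := Mt_diff ht0 hh0
  have hM' := Mt_diff' ht0 hh0
  have hM2 : h / (2 * Real.pi) * Real.log ((t + h) / (2 * Real.pi)) ≤ c := by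
    have h1 : Real.log ((t + h) / (2 * Real.pi)) ≤ Real.log T := by
      apply Real.log_le_log (by positivity)
      rw [div_le_iff₀ (by positivity)]
      nlinarith
    rw [hc]
    exact mul_le_mul_of_nonneg_left h1 (by positivity)
  have hM3 : c - 1 ≤ h / (2 * Real.pi) * Real.log (t / (2 * Real.pi)) := by
    have h1 : Real.log T - Real.log (2 * Real.pi) ≤ Real.log (t / (2 * Real.pi)) := by
      rw [Real.log_div ht0.ne' (by positivity)]
      linarith [Real.log_le_log hT0 ht1]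
    have h2 : Real.log (2 * Real.pi) ≤ 2 * Real.pi := by
      have := Real.log_le_sub_one_of_pos (show 0 < 2 * Real.pi by positivity)
      linarith
    have h3 : h / (2 * Real.pi) * Real.log (2 * Real.pi) ≤ 1 := by
      calc h / (2 * Real.pi) * Real.log (2 * Real.pi) ≤ h / (2 * Real.pi) * (2 * Real.pi) :=
            mul_le_mul_of_nonneg_left h2 (by positivity)
        _ = h := by field_simp
        _ ≤ 1 := hh1
    have h4 := mul_le_mul_of_nonneg_left h1 (show 0 ≤ h / (2 * Real.pi) by positivity)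
    rw [mul_sub, ← hc] at h4
    linarith
  unfold Mt at hM hM'
  unfold ΔS
  constructor <;> linarith

/-- Two-sided bounds for the measure of the `t` with `± (S(t + h) - S(t)) ≥ V`. -/
theorem arg_gauss_of (h1 : DX1) (h2 : TX2) : ∀ ε : ℝ, 0 < ε → ∃ C η c₁ T₀ : ℝ, 0 < C ∧ 0 < η ∧ 0 < c₁ ∧
    ∀ T : ℝ, T₀ ≤ T → ∀ h x V : ℝ, x = h * Real.log T / (2 * Real.pi) → C ≤ x → h ≤ c₁ / Real.log (Real.log T) → 0 ≤ V →
    (V ≤ η * √x →
      ENNReal.ofReal (Real.exp (-((Real.pi ^ 2 / 2 + ε) * V ^ 2 / Real.log (x / V ^ 2) + C)) * T) ≤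
        volume {t : ℝ | T ≤ t ∧ t ≤ 2 * T ∧ V ≤ ΔS h t} ∧
      ENNReal.ofReal (Real.exp (-((Real.pi ^ 2 / 2 + ε) * V ^ 2 / Real.log (x / V ^ 2) + C)) * T) ≤
        volume {t : ℝ | T ≤ t ∧ t ≤ 2 * T ∧ ΔS h t ≤ -V}) ∧
    (V ≤ η * Real.log x →
      volume {t : ℝ | T ≤ t ∧ t ≤ 2 * T ∧ V ≤ |ΔS h t|} ≤
        ENNReal.ofReal (Real.exp (C - (Real.pi ^ 2 / 2 - ε) * V ^ 2 / Real.log x) * T)) := by
  intro ε hε
  obtain ⟨K, C₁, η₁, c₀, c₁, T₁, hK, hC₁, hη₁, hc₁, H1⟩ := h1 (ε / 2) (by positivity)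
  obtain ⟨C₂, η₂, d₂, c₂, T₂, hC₂, hη₂, hd₂, H2⟩ := h2 (ε / 2) (by positivity)
  obtain ⟨V₁, hV₁, HV⟩ := Pool.Agent.Helper93.UW.expo_succ (show 0 < Real.pi ^ 2 / 2 by positivity) hε
  have hpi := Real.pi_pos
  have hpi3 := Real.pi_gt_three
  -- the parameters
  obtain ⟨η, hη⟩ : ∃ η, η = min (min (η₁ / 4) η₂) (1 / 4) := ⟨_, rfl⟩
  have hη0 : 0 < η := by rw [hη]; positivity
  have hηa : η ≤ η₁ / 4 := by rw [hη]; exact (min_le_left _ _).trans (min_le_left _ _)
  have hηb : η ≤ η₂ := by rw [hη]; exact (min_le_left _ _).trans (min_le_right _ _)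
  have hηc : η ≤ 1 / 4 := by rw [hη]; exact min_le_right _ _
  obtain ⟨D, hD⟩ : ∃ D, D = min (min c₁ d₂) (1 / (2 * Real.pi)) := ⟨_, rfl⟩
  have hD1 : D ≤ c₁ := by rw [hD]; exact (min_le_left _ _).trans (min_le_left _ _)
  have hD2 : D ≤ d₂ := by rw [hD]; exact (min_le_left _ _).trans (min_le_right _ _)
  have hD3 : D ≤ 1 / (2 * Real.pi) := by rw [hD]; exact min_le_right _ _
  have hD0 : 0 < D := by rw [hD]; positivity
  -- `W₀(x) = K √log x + V₁`
  obtain ⟨K', hK'⟩ : ∃ K', K' = K + V₁ + 1 := ⟨_, rfl⟩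
  have hK'0 : 0 < K' := by rw [hK']; linarith
  obtain ⟨x₀, hx₀⟩ : ∃ x₀ : ℝ, ∀ x : ℝ, x₀ ≤ x → 1 ≤ Real.log x ∧ K' * √(Real.log x) ≤ η * √x ∧
      (K' * √(Real.log x)) ^ 2 ≤ √x := by
    have e1 : ∀ᶠ x : ℝ in atTop, 1 ≤ Real.log x := Real.tendsto_log_atTop.eventually_ge_atTop 1
    have e2 : ∀ᶠ x : ℝ in atTop, ‖Real.log x‖ ≤ (min η 1 / K') ^ 2 * ‖x ^ (1 / 2 : ℝ)‖ :=
      (isLittleO_log_rpow_atTop (by norm_num : (0:ℝ) < 1 / 2)).bound (by positivity)
    have e3 : ∀ᶠ x : ℝ in atTop, (1:ℝ) ≤ x := eventually_ge_atTop 1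
    obtain ⟨R, hR⟩ := eventually_atTop.mp (e1.and (e2.and e3))
    refine ⟨R, fun x hx => ?_⟩
    obtain ⟨a1, a2, a3⟩ := hR x hx
    have hx0 : (0:ℝ) < x := by linarith
    have a4 : ‖x ^ (1 / 2 : ℝ)‖ = √x := by
      rw [Real.sqrt_eq_rpow]
      exact Real.norm_of_nonneg (by positivity)
    have a5 : ‖Real.log x‖ = Real.log x := Real.norm_of_nonneg (by linarith)
    rw [a4, a5] at a2
    have hs1 : 1 ≤ √x := Real.one_le_sqrt.mpr a3
    have hs0 : 0 ≤ √x := Real.sqrt_nonneg _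
    have hsl : √(Real.log x) ^ 2 = Real.log x := Real.sq_sqrt (by linarith)
    have hm0 : 0 < min η 1 := by positivity
    have a6 : (K' * √(Real.log x)) ^ 2 ≤ (min η 1) ^ 2 * √x := by
      calc (K' * √(Real.log x)) ^ 2 = K' ^ 2 * Real.log x := by rw [mul_pow, hsl]
        _ ≤ K' ^ 2 * ((min η 1 / K') ^ 2 * √x) := mul_le_mul_of_nonneg_left a2 (by positivity)
        _ = (min η 1) ^ 2 * √x := by field_simp
    refine ⟨a1, ?_, ?_⟩
    · refine (pow_le_pow_iff_left₀ (by positivity) (by positivity) (two_ne_zero)).mp ?_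
      calc (K' * √(Real.log x)) ^ 2 ≤ (min η 1) ^ 2 * √x := a6
        _ ≤ η ^ 2 * (√x * √x) := by
            apply mul_le_mul (pow_le_pow_left₀ hm0.le (min_le_left _ _) 2) _ hs0 (by positivity)
            nlinarith
        _ = (η * √x) ^ 2 := by ring
    · calc (K' * √(Real.log x)) ^ 2 ≤ (min η 1) ^ 2 * √x := a6
        _ ≤ 1 * √x := mul_le_mul_of_nonneg_right (pow_le_one₀ hm0.le (min_le_right _ _)) hs0
        _ = _ := one_mul _
  obtain ⟨C₃, hC₃⟩ : ∃ C₃, C₃ = C₁ + 2 * (Real.pi ^ 2 / 2 + ε) * K' ^ 2 := ⟨_, rfl⟩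
  have hC₃0 : 0 < C₃ := by rw [hC₃]; positivity
  obtain ⟨C₄, hC₄⟩ : ∃ C₄, C₄ = C₂ + Real.pi ^ 4 / (2 * ε) := ⟨_, rfl⟩
  obtain ⟨C, hC⟩ : ∃ C, C = max (max C₃ C₄) (max (max c₀ c₂) (max x₀ (Real.pi ^ 2 / 2))) := ⟨_, rfl⟩
  have hCa : C₃ ≤ C := by rw [hC]; exact (le_max_left _ _).trans (le_max_left _ _)
  have hCb : C₄ ≤ C := by rw [hC]; exact (le_max_right _ _).trans (le_max_left _ _)
  have hCc : c₀ ≤ C := by rw [hC]; exact (le_max_left _ _).trans ((le_max_left _ _).trans (le_max_right _ _))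
  have hCd : c₂ ≤ C := by rw [hC]; exact (le_max_right _ _).trans ((le_max_left _ _).trans (le_max_right _ _))
  have hCe : x₀ ≤ C := by rw [hC]; exact (le_max_left _ _).trans ((le_max_right _ _).trans (le_max_right _ _))
  have hCf : Real.pi ^ 2 / 2 ≤ C := by rw [hC]; exact (le_max_right _ _).trans ((le_max_right _ _).trans (le_max_right _ _))
  have hC0 : 0 < C := by linarith
  have ev : ∀ᶠ T : ℝ in atTop, 1 ≤ Real.log (Real.log T) ∧ 10 ≤ T ∧ T₁ ≤ T ∧ T₂ ≤ T := by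
    have e3 : Tendsto (fun T : ℝ => Real.log (Real.log T)) atTop atTop := Real.tendsto_log_atTop.comp Real.tendsto_log_atTop
    filter_upwards [e3.eventually_ge_atTop 1, eventually_ge_atTop (10:ℝ),
      eventually_ge_atTop T₁, eventually_ge_atTop T₂] with T a2 a3 a4 a5
    exact ⟨a2, a3, a4, a5⟩
  obtain ⟨T₀, hT₀⟩ := eventually_atTop.1 ev
  refine ⟨C, η, 2 * Real.pi * D, T₀, hC0, hη0, by positivity, ?_⟩
  intro T hT h x V hx hxC hh2 hV0
  obtain ⟨b2, b3, b4, b5⟩ := hT₀ T hT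
  obtain ⟨g1, g2, g3⟩ := hx₀ x (hCe.trans hxC)
  have hL : 0 < Real.log T := Real.log_pos (by linarith)
  have hLL : 0 < Real.log (Real.log T) := by linarith
  have hT0 : 0 < T := by linarith
  have hh : h = x * sp T := by
    rw [hx]
    unfold sp
    field_simp
  have hxD : x ≤ D * (Real.log T / Real.log (Real.log T)) := by
    rw [hx, div_le_iff₀ (by positivity)]
    have h1 := mul_le_mul_of_nonneg_right hh2 hL.le
    calc h * Real.log T ≤ 2 * Real.pi * D / Real.log (Real.log T) * Real.log T := h1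
      _ = D * (Real.log T / Real.log (Real.log T)) * (2 * Real.pi) := by ring
  have hq0 : 0 ≤ Real.log T / Real.log (Real.log T) := by positivity
  have hx0 : 0 < x := by linarith
  have hh0 : 0 ≤ h := by
    have : 0 < sp T := by unfold sp; positivity
    rw [hh]
    positivity
  have hh3 : h ≤ 1 := by
    refine hh2.trans ?_
    rw [div_le_one hLL]
    have h1 := mul_le_mul_of_nonneg_left hD3 (show 0 ≤ 2 * Real.pi by positivity)
    have h2 : 2 * Real.pi * (1 / (2 * Real.pi)) = 1 := by field_simp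
    linarith
  have hlogT : x = h / (2 * Real.pi) * Real.log T := by
    rw [hx]
    ring
  -- the exceptional set
  obtain ⟨Z, hZ⟩ : ∃ Z : Set ℝ, Z = {g : ℝ | IsOrd g ∧ g ∈ Icc T (2 * T)} ∪
      (fun g => g - h) '' {g : ℝ | IsOrd g ∧ g ∈ Icc T (2 * T + 1)} := ⟨_, rfl⟩
  have hZ0 : volume Z = 0 := by
    rw [hZ]
    refine le_antisymm ((measure_union_le _ _).trans ?_) bot_le
    rw [(ord_fin T (2 * T)).measure_zero, ((ord_fin T (2 * T + 1)).image _).measure_zero, add_zero]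
  have hnear : ∀ t : ℝ, T ≤ t → t ≤ 2 * T → t ∉ Z →
      ((zc (Ico t (t + h)) : ℝ) - x) - 1 ≤ ΔS h t ∧ ΔS h t ≤ ((zc (Ico t (t + h)) : ℝ) - x) + 1 := by
    intro t ht1 ht2 htZ
    apply ΔS_near b3 hh0 hh3 hlogT ht1 ht2
    · intro ht4
      apply htZ
      rw [hZ]
      exact Or.inl ⟨ht4, ht1, ht2⟩
    · intro ht4
      apply htZ
      rw [hZ]
      exact Or.inr ⟨t + h, ⟨ht4, by linarith, by linarith⟩, by simp⟩
  have hsub : ∀ A B : Set ℝ, A ⊆ B ∪ Z → volume A ≤ volume B := by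
    intro A B hAB
    refine (measure_mono hAB).trans ((measure_union_le _ _).trans ?_)
    rw [hZ0, add_zero]
  have hs0 : 0 < √x := Real.sqrt_pos.mpr hx0
  refine ⟨fun hVη => ?_, fun hVl => ?_⟩
  · -- the lower bounds
    obtain ⟨W, hW⟩ : ∃ W, W = max V (K' * √(Real.log x)) := ⟨_, rfl⟩
    have hWV : V ≤ W := by rw [hW]; exact le_max_left _ _
    have hWK : K' * √(Real.log x) ≤ W := by rw [hW]; exact le_max_right _ _
    have hsl1 : 1 ≤ √(Real.log x) := Real.one_le_sqrt.mpr g1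
    have hWη : W ≤ η * √x := by rw [hW]; exact max_le hVη g2
    have hK'W : K' ≤ W := by nlinarith
    have hWV₁ : V₁ ≤ W := by linarith
    have hW1 : 1 ≤ W := by linarith
    have hWK2 : K * √(Real.log x) ≤ W + 1 := by
      have : K * √(Real.log x) ≤ K' * √(Real.log x) := mul_le_mul_of_nonneg_right (by linarith) (by linarith)
      linarith
    have hWη1 : W + 1 ≤ η₁ * √x := by
      have h5 : η * √x ≤ η₁ / 4 * √x := mul_le_mul_of_nonneg_right hηa hs0.le
      have h6 : 0 ≤ η₁ * √x := by positivity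
      linarith
    have hW16 : 16 * W ^ 2 ≤ x := by
      have h5 : W ≤ 1 / 4 * √x := hWη.trans (mul_le_mul_of_nonneg_right hηc hs0.le)
      have h6 : W ^ 2 ≤ (1 / 4 * √x) ^ 2 := pow_le_pow_left₀ (by linarith) h5 2
      rw [mul_pow, Real.sq_sqrt hx0.le] at h6
      linarith
    have hV16 : 16 * V ^ 2 ≤ x := by
      have h6 : V ^ 2 ≤ W ^ 2 := pow_le_pow_left₀ hV0 hWV 2
      linarith
    have hfirst : 0 ≤ (Real.pi ^ 2 / 2 + ε) * V ^ 2 / Real.log (x / V ^ 2) := by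
      rcases hV0.eq_or_lt with h0 | h0
      · rw [← h0]; simp
      · apply div_nonneg (by positivity)
        apply Real.log_nonneg
        rw [le_div_iff₀ (by positivity)]
        nlinarith
    have hcost : (Real.pi ^ 2 / 2 + ε) * W ^ 2 / Real.log (x / W ^ 2) ≤
        (Real.pi ^ 2 / 2 + ε) * V ^ 2 / Real.log (x / V ^ 2) + 2 * (Real.pi ^ 2 / 2 + ε) * K' ^ 2 := by
      have h9 : 0 ≤ 2 * (Real.pi ^ 2 / 2 + ε) * K' ^ 2 := by positivity
      rcases le_total (K' * √(Real.log x)) V with h5 | h5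
      · rw [hW, max_eq_left h5]
        linarith
      · have h6 : W = K' * √(Real.log x) := by rw [hW, max_eq_right h5]
        have h7 : W ^ 2 = K' ^ 2 * Real.log x := by
          rw [h6, mul_pow, Real.sq_sqrt (by linarith)]
        have hlog : Real.log x / 2 ≤ Real.log (x / W ^ 2) := by
          have h8 : Real.log √x = Real.log x / 2 := Real.log_sqrt hx0.le
          rw [← h8]
          apply Real.log_le_log hs0
          rw [le_div_iff₀ (by positivity)]
          calc √x * W ^ 2 ≤ √x * √x := mul_le_mul_of_nonneg_left (by rw [h6]; exact g3) hs0.le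
            _ = x := Real.mul_self_sqrt hx0.le
        calc (Real.pi ^ 2 / 2 + ε) * W ^ 2 / Real.log (x / W ^ 2)
            ≤ (Real.pi ^ 2 / 2 + ε) * W ^ 2 / (Real.log x / 2) :=
              div_le_div_of_nonneg_left (by positivity) (by linarith) hlog
          _ = 2 * (Real.pi ^ 2 / 2 + ε) * K' ^ 2 := by
              rw [h7]
              field_simp
          _ ≤ _ := by linarith
    have hexp : ENNReal.ofReal (Real.exp (-((Real.pi ^ 2 / 2 + ε) * V ^ 2 / Real.log (x / V ^ 2) + C)) * T) ≤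
        ENNReal.ofReal (Real.exp (-(C₁ + (Real.pi ^ 2 / 2 + ε / 2) * (W + 1) ^ 2 / Real.log (x / (W + 1) ^ 2))) * T) := by
      apply ENNReal.ofReal_le_ofReal
      apply mul_le_mul_of_nonneg_right _ hT0.le
      apply Real.exp_le_exp.mpr
      have h5 := HV W x hWV₁ hW16
      rw [hC₃] at hCa
      linarith
    have H : ∀ σ : ℝ, (σ = 1 ∨ σ = -1) → ENNReal.ofReal (Real.exp (-((Real.pi ^ 2 / 2 + ε) * V ^ 2 / Real.log (x / V ^ 2) + C)) * T) ≤
        volume {t : ℝ | T ≤ t ∧ t ≤ 2 * T ∧ W + 1 ≤ σ * (x - (zc (Ico t (t + h)) : ℝ))} := by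
      intro σ hσ
      have h5 := H1 T b4 x (W + 1) σ (hCc.trans hxC) (hxD.trans (mul_le_mul_of_nonneg_right hD1 hq0)) hWK2 hWη1 hσ
      rw [← hh] at h5
      exact hexp.trans h5
    constructor
    · refine (H (-1) (Or.inr rfl)).trans (hsub _ _ ?_)
      rintro t ⟨ht1, ht2, ht3⟩
      by_cases htZ : t ∈ Z
      · exact Or.inr htZ
      · obtain ⟨n1, n2⟩ := hnear t ht1 ht2 htZ
        exact Or.inl ⟨ht1, ht2, by linarith⟩
    · refine (H 1 (Or.inl rfl)).trans (hsub _ _ ?_)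
      rintro t ⟨ht1, ht2, ht3⟩
      by_cases htZ : t ∈ Z
      · exact Or.inr htZ
      · obtain ⟨n1, n2⟩ := hnear t ht1 ht2 htZ
        exact Or.inl ⟨ht1, ht2, by linarith⟩
  · -- the upper bound
    rcases le_total V 1 with hV1 | hV1
    · have h5 : volume {t : ℝ | T ≤ t ∧ t ≤ 2 * T ∧ V ≤ |ΔS h t|} ≤ ENNReal.ofReal T := by
        calc volume {t : ℝ | T ≤ t ∧ t ≤ 2 * T ∧ V ≤ |ΔS h t|} ≤ volume (Icc T (2 * T)) :=
              measure_mono fun t ht => ⟨ht.1, ht.2.1⟩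
          _ = ENNReal.ofReal T := by
              rw [Real.volume_Icc]
              congr 1
              ring
      refine h5.trans (ENNReal.ofReal_le_ofReal ?_)
      have h6 : 0 ≤ C - (Real.pi ^ 2 / 2 - ε) * V ^ 2 / Real.log x := by
        have h7 : (Real.pi ^ 2 / 2 - ε) * V ^ 2 / Real.log x ≤ Real.pi ^ 2 / 2 := by
          rw [div_le_iff₀ (by linarith)]
          have h8 : V ^ 2 ≤ 1 := pow_le_one₀ hV0 hV1
          have h9 : (Real.pi ^ 2 / 2 - ε) * V ^ 2 ≤ Real.pi ^ 2 / 2 * 1 := by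
            have : (Real.pi ^ 2 / 2 - ε) * V ^ 2 ≤ Real.pi ^ 2 / 2 * V ^ 2 :=
              mul_le_mul_of_nonneg_right (by linarith) (sq_nonneg _)
            have : Real.pi ^ 2 / 2 * V ^ 2 ≤ Real.pi ^ 2 / 2 * 1 := mul_le_mul_of_nonneg_left h8 (by positivity)
            linarith
          have h10 : Real.pi ^ 2 / 2 * 1 ≤ Real.pi ^ 2 / 2 * Real.log x := mul_le_mul_of_nonneg_left g1 (by positivity)
          linarith
        linarith
      have h7 := Real.one_le_exp h6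
      nlinarith
    · have h5 := H2 T b5 x (V - 1) (hCd.trans hxC) (hxD.trans (mul_le_mul_of_nonneg_right hD2 hq0)) (by linarith)
        (by
          have h6 : η * Real.log x ≤ η₂ * Real.log x := mul_le_mul_of_nonneg_right hηb (by linarith)
          linarith)
      rw [← hh] at h5
      refine (hsub _ _ ?_).trans (h5.trans (ENNReal.ofReal_le_ofReal ?_))
      · rintro t ⟨ht1, ht2, ht3⟩
        by_cases htZ : t ∈ Z
        · exact Or.inr htZ
        · obtain ⟨n1, n2⟩ := hnear t ht1 ht2 htZ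
          refine Or.inl ⟨by linarith, by linarith, ?_⟩
          have h6 : |ΔS h t| ≤ |(zc (Ico t (t + h)) : ℝ) - x| + 1 := by
            rw [abs_le]
            constructor
            · linarith [neg_abs_le ((zc (Ico t (t + h)) : ℝ) - x)]
            · linarith [le_abs_self ((zc (Ico t (t + h)) : ℝ) - x)]
          linarith
      · apply mul_le_mul_of_nonneg_right _ hT0.le
        apply Real.exp_le_exp.mpr
        have h6 : (Real.pi ^ 2 / 2 - ε) * V ^ 2 ≤ (Real.pi ^ 2 / 2 - ε / 2) * (V - 1) ^ 2 + Real.pi ^ 4 / (2 * ε) := by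
          have h7 : 0 ≤ Real.pi ^ 4 / (2 * ε) - Real.pi ^ 2 * V + ε / 2 * V ^ 2 := by
            have h8 : Real.pi ^ 4 / (2 * ε) - Real.pi ^ 2 * V + ε / 2 * V ^ 2 = (Real.pi ^ 2 - ε * V) ^ 2 / (2 * ε) := by
              field_simp
              ring
            rw [h8]
            positivity
          nlinarith [mul_pos hε (show 0 < V by linarith), sq_nonneg Real.pi]
        have h7 : (Real.pi ^ 2 / 2 - ε) * V ^ 2 / Real.log x ≤
            (Real.pi ^ 2 / 2 - ε / 2) * (V - 1) ^ 2 / Real.log x + Real.pi ^ 4 / (2 * ε) := by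
          have h8 : Real.pi ^ 4 / (2 * ε) / Real.log x ≤ Real.pi ^ 4 / (2 * ε) := div_le_self (by positivity) g1
          have h9 := div_le_div_of_nonneg_right h6 (show 0 ≤ Real.log x by linarith)
          rw [add_div] at h9
          linarith
        rw [hC₄] at hCb
        linarith

end Pool.Agent.Helper93.UX
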