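import Pool.Agent.Helper93.UX.Defs
import Pool.Agent.Helper93.UV.Final2
import Pool.Agent.Helper24.UV.Red

/-!
# UX: the final statement from the three parts
-/

set_option autoImplicit false
open MeasureTheory Set Filter Topology
open Pool.Agent.Helper93.UG (zc IsOrd sp Glong Gshort)

namespace Pool.Agent.Helper93.UX

theorem finalX_of (h2 : Pool.Agent.Helper93.UV.Final2) (h3 : DX2) (h4 : DX3) : FinalX := by
  obtain ⟨Θ, hΘ, h2⟩ := h2
  refine ⟨min Θ (1 / 2), by positivity, fun ε hε => ?_⟩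
  obtain ⟨ε', hε'⟩ : ∃ ε', ε' = min ε (1 / 2) := ⟨_, rfl⟩
  have hε'0 : 0 < ε' := by rw [hε']; positivity
  have hε'2 : ε' ≤ 1 / 2 := by rw [hε']; exact min_le_right _ _
  have hε'ε : ε' ≤ ε := by rw [hε']; exact min_le_left _ _
  obtain ⟨r₁, δ₁, A, T₁, hδ₁, H1⟩ := h2 ε' hε'0
  obtain ⟨r₂, K, C₂, η₂, δ₂, T₂, hK, hC₂, hη₂, hδ₂, H2⟩ := h3 ε hε
  obtain ⟨r₃, C₃, η₃, δ₃, T₃, hC₃, hη₃, hδ₃, H3⟩ := h4 ε hε
  obtain ⟨η, hη⟩ : ∃ η, η = min (min η₂ η₃) (1 / 4) := ⟨_, rfl⟩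
  have hη0 : 0 < η := by rw [hη]; positivity
  have hη4 : η ≤ 1 / 4 := by rw [hη]; exact min_le_right _ _
  have hη2 : η ≤ η₂ := by rw [hη]; exact (min_le_left _ _).trans (min_le_left _ _)
  have hη3 : η ≤ η₃ := by rw [hη]; exact (min_le_left _ _).trans (min_le_right _ _)
  -- large `r`
  obtain ⟨r₄, hr₄⟩ : ∃ r₄ : ℕ, ∀ r : ℕ, r₄ ≤ r → 1 ≤ Real.log r ∧ K * √(Real.log r) ≤ η * √r ∧
      (K * √(Real.log r)) ^ 2 ≤ √r := by
    have e1 : ∀ᶠ x : ℝ in atTop, 1 ≤ Real.log x := Real.tendsto_log_atTop.eventually_ge_atTop 1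
    have e2 : ∀ᶠ x : ℝ in atTop, ‖Real.log x‖ ≤ (min η 1 / (K + 1)) ^ 2 * ‖x ^ (1 / 2 : ℝ)‖ :=
      (isLittleO_log_rpow_atTop (by norm_num : (0:ℝ) < 1 / 2)).bound (by positivity)
    have e3 : ∀ᶠ x : ℝ in atTop, (1:ℝ) ≤ x := eventually_ge_atTop 1
    obtain ⟨R, hR⟩ := eventually_atTop.mp (e1.and (e2.and e3))
    refine ⟨⌈R⌉₊, fun r hr => ?_⟩
    have hRr : R ≤ r := (Nat.le_ceil R).trans (by exact_mod_cast hr)
    obtain ⟨a1, a2, a3⟩ := hR r hRr
    have hx0 : (0:ℝ) < r := by linarith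
    have a4 : ‖(r:ℝ) ^ (1 / 2 : ℝ)‖ = √r := by
      rw [Real.sqrt_eq_rpow]
      exact Real.norm_of_nonneg (by positivity)
    have a5 : ‖Real.log r‖ = Real.log r := Real.norm_of_nonneg (by linarith)
    rw [a4, a5] at a2
    have hs1 : 1 ≤ √(r:ℝ) := Real.one_le_sqrt.mpr a3
    have hs0 : 0 ≤ √(r:ℝ) := Real.sqrt_nonneg _
    have hsl : √(Real.log r) ^ 2 = Real.log r := Real.sq_sqrt (by linarith)
    have hm0 : 0 < min η 1 := by positivity
    have a6 : (K * √(Real.log r)) ^ 2 ≤ (min η 1) ^ 2 * √r := by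
      have b1 : K ^ 2 ≤ (K + 1) ^ 2 := by nlinarith
      calc (K * √(Real.log r)) ^ 2 = K ^ 2 * Real.log r := by rw [mul_pow, hsl]
        _ ≤ (K + 1) ^ 2 * ((min η 1 / (K + 1)) ^ 2 * √r) :=
            mul_le_mul b1 a2 (by linarith) (by positivity)
        _ = (min η 1) ^ 2 * √r := by field_simp
    refine ⟨a1, ?_, ?_⟩
    · refine (pow_le_pow_iff_left₀ (by positivity) (by positivity) (two_ne_zero)).mp ?_
      calc (K * √(Real.log r)) ^ 2 ≤ (min η 1) ^ 2 * √r := a6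
        _ ≤ η ^ 2 * (√r * √r) := by
            apply mul_le_mul (pow_le_pow_left₀ hm0.le (min_le_left _ _) 2) _ hs0 (by positivity)
            nlinarith
        _ = (η * √r) ^ 2 := by ring
    · calc (K * √(Real.log r)) ^ 2 ≤ (min η 1) ^ 2 * √r := a6
        _ ≤ 1 * √r := mul_le_mul_of_nonneg_right (pow_le_one₀ hm0.le (min_le_right _ _)) hs0
        _ = _ := one_mul _
  obtain ⟨r₀, hr₀⟩ : ∃ r₀, r₀ = max (max r₁ r₂) (max r₃ r₄) := ⟨_, rfl⟩
  have hr₀1 : r₁ ≤ r₀ := by rw [hr₀]; exact (le_max_left _ _).trans (le_max_left _ _)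
  have hr₀2 : r₂ ≤ r₀ := by rw [hr₀]; exact (le_max_right _ _).trans (le_max_left _ _)
  have hr₀3 : r₃ ≤ r₀ := by rw [hr₀]; exact (le_max_left _ _).trans (le_max_right _ _)
  have hr₀4 : r₄ ≤ r₀ := by rw [hr₀]; exact (le_max_right _ _).trans (le_max_right _ _)
  obtain ⟨C, hC⟩ : ∃ C, C = max (C₂ + 2 * (Real.pi ^ 2 / 2 + ε) * K ^ 2) C₃ := ⟨_, rfl⟩
  have hCC2 : C₂ + 2 * (Real.pi ^ 2 / 2 + ε) * K ^ 2 ≤ C := by rw [hC]; exact le_max_left _ _
  have hCC2' : C₂ ≤ C := by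
    have : 0 ≤ 2 * (Real.pi ^ 2 / 2 + ε) * K ^ 2 := by positivity
    linarith
  have hCC3 : C₃ ≤ C := by rw [hC]; exact le_max_right _ _
  have hC0 : 0 < C := by linarith
  obtain ⟨δ, hδ⟩ : ∃ δ, δ = min (min δ₁ δ₂) δ₃ := ⟨_, rfl⟩
  have hδ0 : 0 < δ := by rw [hδ]; positivity
  have hδ1 : δ ≤ δ₁ := by rw [hδ]; exact (min_le_left _ _).trans (min_le_left _ _)
  have hδ2 : δ ≤ δ₂ := by rw [hδ]; exact (min_le_left _ _).trans (min_le_right _ _)
  have hδ3 : δ ≤ δ₃ := by rw [hδ]; exact min_le_right _ _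
  have hl := Real.tendsto_log_atTop
  have hll : Tendsto (fun T : ℝ => Real.log (Real.log T)) atTop atTop := hl.comp hl
  obtain ⟨T₄, hT₄⟩ := eventually_atTop.mp ((hl.eventually_ge_atTop 1).and ((hll.eventually_gt_atTop 0).and
    (eventually_ge_atTop (Real.exp 1))))
  refine ⟨r₀, C, η, δ, A, max (max T₁ T₂) (max T₃ T₄), hC0, hη0, hδ0, ?_⟩
  intro T hT r hr hrT V
  have hT1 : T₁ ≤ T := (le_max_left _ _).trans ((le_max_left _ _).trans hT)
  have hT2 : T₂ ≤ T := (le_max_right _ _).trans ((le_max_left _ _).trans hT)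
  have hT3 : T₃ ≤ T := (le_max_left _ _).trans ((le_max_right _ _).trans hT)
  obtain ⟨hL, hLL, hTe⟩ := hT₄ T ((le_max_right _ _).trans ((le_max_right _ _).trans hT))
  have hT0 : 0 < T := (Real.exp_pos 1).trans_le hTe
  have hTL : 0 ≤ T * Real.log T := by positivity
  have hq : 0 ≤ Real.log T / Real.log (Real.log T) := by positivity
  have hr1' := hrT.trans (mul_le_mul_of_nonneg_right hδ1 hq)
  have hr2' := hrT.trans (mul_le_mul_of_nonneg_right hδ2 hq)
  have hr3' := hrT.trans (mul_le_mul_of_nonneg_right hδ3 hq)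
  refine ⟨fun hV => ?_, fun hr0 hV0 hVl => ?_⟩
  · by_cases hcase : r₀ ≤ r ∧ 0 ≤ V ∧ V ≤ η * √r
    swap
    · unfold cost
      rw [if_neg hcase]
      obtain ⟨h7, h8⟩ := H1 T hT1 r hr hr1'
      have h9 : V ≤ (if r₁ ≤ r then 1 - ε' else Θ) * √r := by
        refine hV.trans (mul_le_mul_of_nonneg_right ?_ (Real.sqrt_nonneg _))
        by_cases h10 : r₀ ≤ r
        · rw [if_pos h10, if_pos (hr₀1.trans h10)]
          linarith
        · rw [if_neg h10]
          by_cases h11 : r₁ ≤ r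
          · rw [if_pos h11]
            refine (min_le_right _ _).trans ?_
            linarith
          · rw [if_neg h11]
            exact min_le_left _ _
      refine ⟨h7.trans ?_, h8.trans ?_⟩
      · exact_mod_cast Pool.Agent.Helper24.UV.Glong_mono (add_le_add_right h9 _) hTe r
      · exact_mod_cast Pool.Agent.Helper24.UV.Gshort_mono (sub_le_sub_left h9 _) hTe r
    obtain ⟨hr0, hV0, hVη⟩ := hcase
    obtain ⟨b1, b2, b3⟩ := hr₄ r (hr₀4.trans hr0)
    have hx1 : (1:ℝ) ≤ r := by exact_mod_cast hr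
    have hx0 : (0:ℝ) < r := by linarith
    have hs0 : 0 < √(r:ℝ) := Real.sqrt_pos.mpr hx0
    have hfirst : 0 ≤ V ^ 2 / Real.log (r / V ^ 2) := by
      rcases hV0.eq_or_lt with h0 | h0
      · rw [← h0]; simp
      · apply div_nonneg (sq_nonneg _)
        apply Real.log_nonneg
        rw [le_div_iff₀ (by positivity)]
        have h1 : V ≤ √(r:ℝ) := hVη.trans (by nlinarith)
        have h2 : V ^ 2 ≤ √(r:ℝ) ^ 2 := pow_le_pow_left₀ hV0 h1 2
        rw [Real.sq_sqrt hx0.le] at h2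
        linarith
    have hcost : cost ε C η A r₀ r V = (Real.pi ^ 2 / 2 + ε) * V ^ 2 / Real.log (r / V ^ 2) + C := by
      unfold cost
      rw [if_pos ⟨hr0, hV0, hVη⟩]
    by_cases hVK : K * √(Real.log r) ≤ V
    · have h1 := H2 T hT2 r (hr₀2.trans hr0) hr2' V hVK (hVη.trans (mul_le_mul_of_nonneg_right hη2 hs0.le))
      have h2 : Real.exp (-cost ε C η A r₀ r V) * (T * Real.log T) ≤
          Real.exp (-(C₂ + (Real.pi ^ 2 / 2 + ε) * V ^ 2 / Real.log (r / V ^ 2))) * (T * Real.log T) := by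
        apply mul_le_mul_of_nonneg_right _ hTL
        apply Real.exp_le_exp.mpr
        rw [hcost]
        linarith
      exact ⟨h2.trans h1.1, h2.trans h1.2⟩
    · push Not at hVK
      obtain ⟨W, hW⟩ : ∃ W, W = K * √(Real.log r) := ⟨_, rfl⟩
      rw [← hW] at hVK b2 b3
      have hW0 : 0 < W := by
        rw [hW]
        have : 0 < √(Real.log r) := Real.sqrt_pos.mpr (by linarith)
        positivity
      have h1 := H2 T hT2 r (hr₀2.trans hr0) hr2' W hW.ge (b2.trans (mul_le_mul_of_nonneg_right hη2 hs0.le))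
      have hlog : Real.log r / 2 ≤ Real.log (r / W ^ 2) := by
        have h5 : Real.log √(r:ℝ) = Real.log r / 2 := Real.log_sqrt hx0.le
        rw [← h5]
        apply Real.log_le_log hs0
        rw [le_div_iff₀ (by positivity)]
        calc √(r:ℝ) * W ^ 2 ≤ √(r:ℝ) * √(r:ℝ) := mul_le_mul_of_nonneg_left b3 hs0.le
          _ = r := Real.mul_self_sqrt hx0.le
      have hE : (Real.pi ^ 2 / 2 + ε) * W ^ 2 / Real.log (r / W ^ 2) ≤ 2 * (Real.pi ^ 2 / 2 + ε) * K ^ 2 := by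
        have h6 : W ^ 2 = K ^ 2 * Real.log r := by
          rw [hW, mul_pow, Real.sq_sqrt (by linarith)]
        calc (Real.pi ^ 2 / 2 + ε) * W ^ 2 / Real.log (r / W ^ 2)
            ≤ (Real.pi ^ 2 / 2 + ε) * W ^ 2 / (Real.log r / 2) :=
              div_le_div_of_nonneg_left (by positivity) (by linarith) hlog
          _ = 2 * (Real.pi ^ 2 / 2 + ε) * K ^ 2 := by
              rw [h6]
              field_simp
      have h2 : Real.exp (-cost ε C η A r₀ r V) * (T * Real.log T) ≤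
          Real.exp (-(C₂ + (Real.pi ^ 2 / 2 + ε) * W ^ 2 / Real.log (r / W ^ 2))) * (T * Real.log T) := by
        apply mul_le_mul_of_nonneg_right _ hTL
        apply Real.exp_le_exp.mpr
        rw [hcost, mul_div_assoc]
        have h3 : 0 ≤ (Real.pi ^ 2 / 2 + ε) * (V ^ 2 / Real.log (r / V ^ 2)) := mul_nonneg (by positivity) hfirst
        linarith
      refine ⟨h2.trans (h1.1.trans ?_), h2.trans (h1.2.trans ?_)⟩
      · exact_mod_cast Pool.Agent.Helper24.UV.Glong_mono (add_le_add_right hVK.le _) hTe r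
      · exact_mod_cast Pool.Agent.Helper24.UV.Gshort_mono (sub_le_sub_left hVK.le _) hTe r
  · obtain ⟨b1, -, -⟩ := hr₄ r (hr₀4.trans hr0)
    have h1 := H3 T hT3 r (hr₀3.trans hr0) hr3' V hV0 (hVl.trans (mul_le_mul_of_nonneg_right hη3 (by linarith)))
    have h2 : Real.exp (C₃ - (Real.pi ^ 2 / 2 - ε) * V ^ 2 / Real.log r) * (T * Real.log T) ≤
        Real.exp (C - (Real.pi ^ 2 / 2 - ε) * V ^ 2 / Real.log r) * (T * Real.log T) := by
      apply mul_le_mul_of_nonneg_right _ hTL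
      apply Real.exp_le_exp.mpr
      linarith
    exact ⟨h1.1.trans h2, h1.2.trans h2⟩

end Pool.Agent.Helper93.UX
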